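import Pool.Agent.Helper16.SD.GoalsE
import Pool.Agent.Helper16.REC.KBAS

/-!
# Project SD (MP_fc6b1e_nt): packet B_ACT, the symbols of conjugate primes
-/

set_option autoImplicit false

namespace Pool.Agent.Helper32.SD.B_ACT

open NumberField Module IsDedekindDomain WithZero
open Pool.Agent.Helper51.SigLeo Pool.Agent.Helper51.RP Pool.Agent.Helper51.REC
open Pool.Agent.Helper16.SD

theorem intVal_conj {R : Type} [CommRing R] [IsDedekindDomain R] (e : R ≃+* R)
    (v w : HeightOneSpectrum R) (hw : w.asIdeal = v.asIdeal.map (e : R →+* R)) (r : R) :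
    w.intValuation (e r) = v.intValuation r := by
  by_cases hr : r = 0
  · subst hr; simp
  have her : e r ≠ 0 := by simpa using hr
  have key : ∀ n : ℕ, w.intValuation (e r) ≤ exp (-(n : ℤ)) ↔
      v.intValuation r ≤ exp (-(n : ℤ)) := by
    intro n
    rw [HeightOneSpectrum.intValuation_le_pow_iff_mem, HeightOneSpectrum.intValuation_le_pow_iff_mem,
      hw, ← Ideal.map_pow]
    constructor
    · intro h
      have h2 := (Ideal.mem_map_iff_of_surjective (e : R →+* R) e.surjective).1 h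
      obtain ⟨s, hs, hse⟩ := h2
      have : s = r := e.injective hse
      rwa [← this]
    · intro h
      exact Ideal.mem_map_of_mem (e : R →+* R) h
  have h1 := (w.intValuation_if_neg her)
  have h2 := (v.intValuation_if_neg hr)
  apply le_antisymm
  · have := (key _).2 h2.le
    rwa [← h2] at this
  · have := (key _).1 h1.le
    rwa [← h1] at this

section

variable {K F : Type} [Field K] [Field F] [NumberField F] [Algebra K F]

theorem gP_ideal (g : F ≃ₐ[K] F) (W : HeightOneSpectrum (𝓞 F)) : (gP g W).asIdeal =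
    W.asIdeal.map (RingOfIntegers.mapRingEquiv (g : F ≃+* F) : 𝓞 F →+* 𝓞 F) := by
  show W.asIdeal.comap ((RingOfIntegers.mapRingEquiv (g : F ≃+* F)).symm : 𝓞 F →+* 𝓞 F) = _
  exact Ideal.comap_symm (RingOfIntegers.mapRingEquiv (g : F ≃+* F))

theorem gP_val (g : F ≃ₐ[K] F) (W : HeightOneSpectrum (𝓞 F)) (y : F) :
    (gP g W).valuation F (g y) = W.valuation F y := by
  obtain ⟨⟨n, d⟩, rfl⟩ := IsLocalization.mk'_surjective (nonZeroDivisors (𝓞 F)) y
  have h1 : ∀ r : 𝓞 F, (gP g W).valuation F (g (algebraMap (𝓞 F) F r)) =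
      W.valuation F (algebraMap (𝓞 F) F r) := by
    intro r
    have h2 : g (algebraMap (𝓞 F) F r) =
      algebraMap (𝓞 F) F (RingOfIntegers.mapRingEquiv (g : F ≃+* F) r) := rfl
    rw [h2, HeightOneSpectrum.valuation_of_algebraMap, HeightOneSpectrum.valuation_of_algebraMap,
      intVal_conj (RingOfIntegers.mapRingEquiv (g : F ≃+* F)) W (gP g W) (gP_ideal g W)]
  show (gP g W).valuation F (g (IsLocalization.mk' F n d)) =
    W.valuation F (IsLocalization.mk' F n d)
  rw [IsFractionRing.mk'_eq_div, map_div₀, map_div₀, map_div₀, h1, h1]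

theorem gP_val' (g : F ≃ₐ[K] F) (W : HeightOneSpectrum (𝓞 F)) (y : F) :
    (gP g W).valuation F y = W.valuation F (g⁻¹ y) := by
  rw [← gP_val g W (g⁻¹ y)]
  congr 1
  exact (AlgEquiv.apply_symm_apply g y).symm

theorem gP_norm (g : F ≃ₐ[K] F) (W : HeightOneSpectrum (𝓞 F)) :
    Ideal.absNorm (gP g W).asIdeal = Ideal.absNorm W.asIdeal := by
  rw [Ideal.absNorm_apply, Ideal.absNorm_apply, Submodule.cardQuot_apply,
    Submodule.cardQuot_apply]
  exact (Nat.card_congr (Ideal.quotientEquiv W.asIdeal (gP g W).asIdeal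
    (RingOfIntegers.mapRingEquiv (g : F ≃+* F)) (gP_ideal g W)).toEquiv).symm

end

theorem t : Pool.Agent.Helper16.SD.B_ACT := by
  intro p _ K F _ _ _ _ ε hε g m hg W hW x
  have h1 : ∀ y : F, ordv (gP g W) y = ordv W (g⁻¹ y) := by
    intro y
    unfold ordv
    rw [gP_val']
  refine ⟨h1, ?_⟩
  obtain ⟨x', hx'⟩ : ∃ x' : Fˣ, x' = Units.map ((g⁻¹ : F ≃ₐ[K] F) : F →* F) x := ⟨_, rfl⟩
  have hx'v : (x' : F) = g⁻¹ (x : F) := by rw [hx']; rfl
  rw [← hx']
  have hW' : (gP g W).valuation F (p : F) = 1 := by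
    rw [gP_val', map_natCast, hW]
  have hB := Pool.Agent.Helper16.REC.k_bas p F ε hε W hW
  have hB' := Pool.Agent.Helper16.REC.k_bas p F ε hε (gP g W) hW'
  have hord : ordv (gP g W) (x : F) = ordv W (x' : F) := by rw [h1, hx'v]
  by_cases hd : (p : ℤ) ∣ ordv W (x' : F)
  · obtain ⟨y, hy1, hy2⟩ := (hB.2.2.1 x' hd (kap p ε W x')).2 rfl
    symm
    rw [← hB'.2.2.1 x (by rw [hord]; exact hd)]
    refine ⟨Units.map ((g : F ≃ₐ[K] F) : F →* F) y, ?_, ?_⟩
    · have e1 : (x : F) * ((Units.map ((g : F ≃ₐ[K] F) : F →* F) y : Fˣ) : F) ^ p =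
          g ((x' : F) * (y : F) ^ p) := by
        rw [map_mul, map_pow, hx'v]
        congr 1
        exact (AlgEquiv.apply_symm_apply g (x : F)).symm
      rw [e1, gP_val, hy1]
    · have e1 : (x : F) * ((Units.map ((g : F ≃ₐ[K] F) : F →* F) y : Fˣ) : F) ^ p =
          g ((x' : F) * (y : F) ^ p) := by
        rw [map_mul, map_pow, hx'v]
        congr 1
        exact (AlgEquiv.apply_symm_apply g (x : F)).symm
      have e2 : ε ^ (((m : ZMod p) * kap p ε W x').val) = g (ε ^ (kap p ε W x').val) := by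
        rw [map_pow, hg, ← pow_mul, ZMod.val_mul, ZMod.val_natCast,
          pow_eq_pow_mod (m * (kap p ε W x').val) hε.pow_eq_one, Nat.mod_mul_mod]
      rw [e1, e2, gP_norm, ← map_pow, ← map_sub, gP_val]
      exact hy2
  · rw [hB.2.1 x' hd, hB'.2.1 x (by rw [hord]; exact hd), mul_zero]

end Pool.Agent.Helper32.SD.B_ACT
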