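import Pool.Agent.Helper16.SD.GoalsJ

/-!
# Project SD (MP_fc6b1e_nt): packet J_DET, units with a nonzero regulator
-/

set_option autoImplicit false

namespace Pool.Agent.Helper32.SD.J_DET

open NumberField Module IsDedekindDomain TensorProduct
open Pool.Agent.Helper51.SigLeo Pool.Agent.Helper51.RP Pool.Agent.Helper51.REC
open Pool.Agent.Helper38.FD (Chr)
open Pool.Agent.Helper17.TH (ug)
open Pool.Agent.Helper16.SD

section abstract

variable {k A : Type} [Field k] [AddCommGroup A]

theorem extEnd_tm (f : A →+ A) (c : k) (a : A) :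
    (extEnd f : (k ⊗[ℤ] A) →ₗ[k] (k ⊗[ℤ] A)) (c ⊗ₜ[ℤ] a) = c ⊗ₜ[ℤ] (f a) := by
  unfold extEnd
  rw [LinearMap.baseChange_tmul]
  rfl

theorem extHom_tm (f : A →+ k) (c : k) (a : A) : extHom f (c ⊗ₜ[ℤ] a) = c * f a := by
  unfold extHom
  rw [LinearMap.liftBaseChange_tmul]
  rfl

theorem extHom_comp (f : A →+ k) (e : A →+ A) (v : k ⊗[ℤ] A) :
    extHom (f.comp e) v = extHom f (extEnd e v) := by
  induction v using TensorProduct.induction_on with
  | zero => simp
  | tmul c a => rw [extEnd_tm, extHom_tm, extHom_tm]; rfl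
  | add x y hx hy => rw [map_add, map_add, map_add, hx, hy]

variable {G B : Type} [Fintype G] [Group G] [Fintype B] [DecidableEq B]

/-- the sum with the character -/
noncomputable def Mh (nu : G →* kˣ) (a : G → A →+ A) (l : B → A →+ k) (i : B) : A →+ k :=
  ∑ h : G, (AddMonoidHom.mulLeft (((nu h)⁻¹ : kˣ) : k)).comp ((l i).comp (a h))

omit [Fintype B] [DecidableEq B] in
theorem Mh_apply (nu : G →* kˣ) (a : G → A →+ A) (l : B → A →+ k) (i : B) (u : A) :
    Mh nu a l i u = ∑ h : G, (((nu h)⁻¹ : kˣ) : k) * l i (a h u) := by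
  unfold Mh
  rw [AddMonoidHom.finsetSum_apply]
  rfl

omit [Fintype B] [DecidableEq B] in
theorem extHom_Mh (nu : G →* kˣ) (a : G → A →+ A) (l : B → A →+ k) (i : B) (v : k ⊗[ℤ] A) :
    extHom (Mh nu a l i) v = ∑ h : G, (((nu h)⁻¹ : kˣ) : k) * extHom (l i) (extEnd (a h) v) := by
  induction v using TensorProduct.induction_on with
  | zero => simp
  | tmul c u =>
    rw [extHom_tm, Mh_apply, Finset.mul_sum]
    apply Finset.sum_congr rfl
    intro h _
    rw [extEnd_tm, extHom_tm]
    ring
  | add x y hx hy =>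
    rw [map_add, hx, hy, ← Finset.sum_add_distrib]
    apply Finset.sum_congr rfl
    intro h _
    rw [map_add, map_add, mul_add]

theorem abs_det [CharZero k] (nu : G →* kˣ) (a : G → A →+ A) (l : B → A →+ k)
    (hsurj : ∀ w : B → k, ∃ v : k ⊗[ℤ] A, (∀ h, extEnd (a h) v = ((nu h : kˣ) : k) • v) ∧
      ∀ i, extHom (l i) v = w i) :
    ∃ e : B → A, (Matrix.of fun i j : B =>
      ∑ h, (((nu h)⁻¹ : kˣ) : k) * l i (a h (e j))).det ≠ 0 := by
  obtain ⟨s, hs⟩ : ∃ s : Set (B → k), s = Set.range fun u : A => fun i : B => Mh nu a l i u :=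
    ⟨_, rfl⟩
  have hspan : Submodule.span k s = ⊤ := by
    rw [eq_top_iff]
    intro w _
    obtain ⟨v, hv1, hv2⟩ := hsurj w
    have h1 : (fun i : B => extHom (Mh nu a l i) v) ∈ Submodule.span k s := by
      clear hv1 hv2
      induction v using TensorProduct.induction_on with
      | zero =>
        have h0 : (fun i : B => extHom (Mh nu a l i) (0 : k ⊗[ℤ] A)) = 0 := by
          funext i
          rw [map_zero]
          rfl
        rw [h0]
        exact zero_mem _
      | tmul c u =>
        have h0 : (fun i : B => extHom (Mh nu a l i) (c ⊗ₜ[ℤ] u)) =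
            c • (fun i => Mh nu a l i u) := by
          funext i
          rw [extHom_tm]
          rfl
        rw [h0]
        exact Submodule.smul_mem _ _ (Submodule.subset_span (by rw [hs]; exact ⟨u, rfl⟩))
      | add x y hx hy =>
        have h0 : (fun i : B => extHom (Mh nu a l i) (x + y)) =
            (fun i : B => extHom (Mh nu a l i) x) + (fun i : B => extHom (Mh nu a l i) y) := by
          funext i
          rw [map_add]
          rfl
        rw [h0]
        exact add_mem hx hy
    have h2 : (fun i => extHom (Mh nu a l i) v) = (Fintype.card G : k) • w := by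
      funext i
      rw [extHom_Mh]
      have h0 : ∀ h ∈ (Finset.univ : Finset G),
          (((nu h)⁻¹ : kˣ) : k) * extHom (l i) (extEnd (a h) v) = w i := by
        intro h _
        rw [hv1, map_smul, hv2, smul_eq_mul, ← mul_assoc, ← Units.val_mul, inv_mul_cancel,
          Units.val_one, one_mul]
      rw [Finset.sum_congr rfl h0, Finset.sum_const, Finset.card_univ, Pi.smul_apply,
        nsmul_eq_mul, smul_eq_mul]
    rw [h2] at h1
    have hG : (Fintype.card G : k) ≠ 0 := Nat.cast_ne_zero.2 Fintype.card_ne_zero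
    have h3 := Submodule.smul_mem _ ((Fintype.card G : k)⁻¹) h1
    rwa [smul_smul, inv_mul_cancel₀ hG, one_smul] at h3
  obtain ⟨f, hf1, hf2, hf3⟩ := Submodule.exists_fun_fin_finrank_span_eq k s
  have hcard : finrank k (Submodule.span k s) = Fintype.card B := by
    rw [hspan, finrank_top, Module.finrank_fintype_fun_eq_card]
  have eqv : B ≃ Fin (finrank k (Submodule.span k s)) :=
    Fintype.equivOfCardEq (by rw [Fintype.card_fin, hcard])
  have hf1' : ∀ i, ∃ u : A, (fun i : B => Mh nu a l i u) = f i := by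
    intro i
    have h0 : f i ∈ Set.range fun u : A => fun i : B => Mh nu a l i u := hs.subset (hf1 i)
    exact h0
  choose e' he' using hf1'
  refine ⟨fun j => e' (eqv j), ?_⟩
  have hli : LinearIndependent k (fun j => f (eqv j)) := hf3.comp _ eqv.injective
  have hmat : (Matrix.of fun i j : B =>
      ∑ h, (((nu h)⁻¹ : kˣ) : k) * l i (a h (e' (eqv j)))).col = fun j => f (eqv j) := by
    funext j i
    rw [← he' (eqv j)]
    exact (Mh_apply nu a l i (e' (eqv j))).symm
  rw [← hmat, Matrix.linearIndependent_cols_iff_isUnit, Matrix.isUnit_iff_isUnit_det] at hli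
  exact hli.ne_zero

end abstract

theorem exists_gal {K F L : Type} [Field K] [Field F] [Field L] [Algebra K F] [Normal K F]
    (τ τ' : F →+* L) (h : τ.comp (algebraMap K F) = τ'.comp (algebraMap K F)) :
    ∃ g : F ≃ₐ[K] F, τ' = τ.comp (g : F →+* F) := by
  letI : Algebra F L := τ.toAlgebra
  letI : Algebra K L := (τ.comp (algebraMap K F)).toAlgebra
  haveI : IsScalarTower K F L := IsScalarTower.of_algebraMap_eq (fun x => rfl)
  let φ : F →ₐ[K] L :=
    { τ' with commutes' := fun x => (congrArg (fun f : K →+* L => f x) h).symm }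
  refine ⟨AlgHom.restrictNormal' φ F, ?_⟩
  ext x
  exact (AlgHom.restrictNormal_commutes φ F x).symm

theorem t : Pool.Agent.Helper16.SD.J_DET := by
  intro p _ K _ _ Lg F _ _ ν nu hnu B _ _ hind tt htt
  have hact : ∀ v ∈ chiPart F ν, ∀ h : F ≃ₐ[K] F,
      extEnd (unitsHom h) v = ((nu h : ℂ_[p]ˣ) : ℂ_[p]) • v := by
    intro v hv h
    obtain ⟨g, rfl⟩ := AlgEquiv.restrictNormalHom_surjective (F := K) (K₁ := F)
      (AlgebraicClosure K) h
    rw [hnu g]
    exact hv g
  have hlog : ∀ (τ : F →+* ℂ_[p]) (h : F ≃ₐ[K] F),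
      logUnits Lg (τ.comp (h : F →+* F)) = (logUnits Lg τ).comp (unitsHom h) := by
    intro τ h
    ext u
    rfl
  obtain ⟨Λ, hΛ⟩ : ∃ Λ : chiPart F ν →ₗ[ℂ_[p]] (B → ℂ_[p]),
      Λ = (LinearMap.pi fun i : B => extHom (logUnits Lg (tt i))) ∘ₗ (chiPart F ν).subtype :=
    ⟨_, rfl⟩
  have hΛa : ∀ v i, Λ v i = extHom (logUnits Lg (tt i)) (v : ℂ_[p] ⊗[ℤ] Additive (𝓞 F)ˣ) := by
    intro v i
    rw [hΛ]
    rfl
  have hker : LinearMap.ker Λ = (logKer Lg F B).comap (chiPart F ν).subtype := by
    ext v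
    rw [LinearMap.mem_ker, Submodule.mem_comap, Submodule.subtype_apply]
    constructor
    · intro hv τ hτ
      obtain ⟨h, hh⟩ := exists_gal (K := K) (tt ⟨_, hτ⟩) τ (htt ⟨_, hτ⟩)
      rw [hh, hlog, extHom_comp, hact _ v.2, map_smul, ← hΛa, hv, Pi.zero_apply, smul_zero]
    · intro hv
      funext i
      rw [hΛa, Pi.zero_apply]
      exact hv (tt i) (by
        show (tt i).comp (algebraMap K F) ∈ B
        rw [htt i]
        exact i.2)
  have hkd : finrank ℂ_[p] (LinearMap.ker Λ) = kd Lg F ν B := by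
    rw [hker, ← Submodule.finrank_map_subtype_eq, Submodule.map_comap_subtype]
    rfl
  have hrn := LinearMap.finrank_range_add_finrank_ker Λ
  have hcB : B.ncard = Fintype.card B := by
    rw [← Nat.card_coe_set_eq, Nat.card_eq_fintype_card]
  have hind' : kd Lg F ν B + B.ncard = finrank ℂ_[p] (chiPart F ν) := hind
  have hrange : LinearMap.range Λ = ⊤ := by
    apply Submodule.eq_top_of_finrank_eq
    rw [Module.finrank_fintype_fun_eq_card]
    omega
  obtain ⟨e, he⟩ := abs_det (k := ℂ_[p]) nu (fun h : F ≃ₐ[K] F => unitsHom h)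
    (fun i : B => logUnits Lg (tt i)) (fun w => by
      obtain ⟨v, hv⟩ := LinearMap.range_eq_top.1 hrange w
      refine ⟨v, fun h => hact v v.2 h, fun i => ?_⟩
      rw [← hΛa, hv])
  exact ⟨fun j => (e j).toMul, he⟩

end Pool.Agent.Helper32.SD.J_DET
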