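import Pool.Agent.Helper16.SD.GoalsS
import Mathlib.NumberTheory.NumberField.CMField

/-!
# Project SD (MP_fc6b1e_nt), packet A_CM
-/

set_option autoImplicit false

namespace Pool.Agent.Helper32.SD.A_CM

open NumberField Module
open Pool.Agent.Helper16.SD

/-- **A_CM**. -/
theorem t : A_CM := by
  intro F₀ K _ _ _ _ _ _ _ hdeg
  have hq : Algebra.IsQuadraticExtension F₀ K := ⟨hdeg⟩
  have hCM : IsCMField K := IsCMField.ofCMExtension F₀ K
  refine ⟨(IsCMField.complexConj K).toRingEquiv,
    fun x ↦ IsCMField.complexConj_apply_apply K x, ?_⟩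
  intro ιinf c hc σ
  have h1 : ∀ x, c (σ x) = σ (IsCMField.complexConj K x) := by
    intro x
    apply ιinf.injective
    rw [hc]
    exact (IsCMField.complexEmbedding_complexConj K (ιinf.comp σ) x).symm
  refine ⟨h1, ?_⟩
  intro h
  apply IsCMField.complexConj_ne_one K
  ext x
  apply σ.injective
  have h2 : (c • σ) x = σ x := by rw [h]
  have h3 : (c • σ) x = c (σ x) := rfl
  rw [h3, h1] at h2
  exact h2

end Pool.Agent.Helper32.SD.A_CM
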